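import Pool.Agent.Helper28.RS.Step

/-! Rainbow saturation: doubling a leaf. -/

set_option autoImplicit false

namespace Pool.Agent.Helper28.RS

open SimpleGraph

variable {k : ℕ} {H : SimpleGraph (Fin k)}

/-- there is a rainbow saturated graph with `n` vertices and at most `e` edges containing a family
of `m` components with pattern `P` -/
def HasFam {k : ℕ} (H : SimpleGraph (Fin k)) {p : ℕ} (P : Pat p) (m n e : ℕ) : Prop :=
  ∃ (V : Type) (_ : Fintype V) (_ : DecidableEq V) (G : SimpleGraph V) (χ : Sym2 V → ℕ)
    (φ : Fin m → Fin p → V), Fintype.card V = n ∧ G.edgeSet.ncard ≤ e ∧ Sat H G χ ∧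
    Fam G χ P m φ

theorem HasFam.good {p : ℕ} {P : Pat p} {m n e : ℕ} (h : HasFam H P m n e) : Good H n e := by
  obtain ⟨V, _, _, G, χ, φ, h1, h2, h3, _⟩ := h
  obtain ⟨G', χ', h4, h5⟩ := h3.good
  subst h1
  exact ⟨G', χ', h4.trans h2, h5⟩

theorem gsum_ncard {V : Type*} [Fintype V] {p : ℕ} (G : SimpleGraph V) (T : SimpleGraph (Fin p)) :
    (gsum G T).edgeSet.ncard ≤ G.edgeSet.ncard + T.edgeSet.ncard := by
  have hsub : (gsum G T).edgeSet ⊆ (Sym2.map Sum.inl '' G.edgeSet) ∪ (Sym2.map Sum.inr '' T.edgeSet) := by
    intro d hd
    rcases gsum_edge hd with ⟨e, he, h⟩ | ⟨e, he, h⟩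
    · exact Or.inl ⟨e, he, h.symm⟩
    · exact Or.inr ⟨e, he, h.symm⟩
  refine (Set.ncard_le_ncard hsub (Set.toFinite _)).trans ((Set.ncard_union_le _ _).trans ?_)
  exact Nat.add_le_add (Set.ncard_image_le (Set.toFinite _)) (Set.ncard_image_le (Set.toFinite _))

theorem HasFam.step {p : ℕ} {P : Pat p} {m n e : ℕ} (h : HasFam H P m n e) (hm : mzero k ≤ m) :
    HasFam H P m (n + p) (e + P.T.edgeSet.ncard) := by
  classical
  obtain ⟨V, _, _, G, χ, φ, h1, h2, h3, h4⟩ := h
  obtain ⟨χ', h5, h6⟩ := Pool.Agent.Helper28.RS.step h3 h4 hm
  refine ⟨V ⊕ Fin p, inferInstance, inferInstance, gsum G P.T, χ', _, ?_, ?_, ?_, h6⟩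
  · rw [Fintype.card_sum, Fintype.card_fin, h1]
  · exact (gsum_ncard G P.T).trans (by omega)
  · convert h5

theorem HasFam.steps {p : ℕ} {P : Pat p} {m n e : ℕ} (h : HasFam H P m n e) (hm : mzero k ≤ m)
    (t : ℕ) : HasFam H P m (n + t * p) (e + t * P.T.edgeSet.ncard) := by
  induction t with
  | zero => simpa using h
  | succ t ih =>
    have := ih.step hm
    rw [Nat.succ_mul, Nat.succ_mul, ← Nat.add_assoc, ← Nat.add_assoc]
    exact this

section clone

variable {V : Type*} [Fintype V] [DecidableEq V] {G : SimpleGraph V} {χ : Sym2 V → ℕ}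

/-- identification of the clone with `z` -/
def rho {V : Type*} (z : V) : Option V → V
  | none => z
  | some v => v

theorem clone_sect {z : V} (hS : Sat H G χ) {x y : Option V} (hxy : rho z x ≠ rho z y)
    (hadj : ¬ G.Adj (rho z x) (rho z y)) (col : ℕ) :
    Rb H (G.comap (rho z) ⊔ SimpleGraph.fromEdgeSet {s(x, y)})
      (Function.update (fun e => χ (e.map (rho z))) s(x, y) col) := by
  classical
  -- a section
  obtain ⟨σ, hσ, hσx, hσy⟩ : ∃ σ : V → Option V, (∀ v, rho z (σ v) = v) ∧ σ (rho z x) = x ∧
      σ (rho z y) = y := by
    refine ⟨fun v => if v = rho z x then x else if v = rho z y then y else some v, ?_, ?_, ?_⟩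
    · intro v
      beta_reduce
      by_cases h1 : v = rho z x
      · rw [if_pos h1, h1]
      · rw [if_neg h1]
        by_cases h2 : v = rho z y
        · rw [if_pos h2, h2]
        · rw [if_neg h2]
          rfl
    · beta_reduce
      rw [if_pos rfl]
    · beta_reduce
      rw [if_neg (Ne.symm hxy), if_pos rfl]
  have hσi : Function.Injective σ := fun a b h => by rw [← hσ a, ← hσ b, h]
  have hmap : ∀ e : Sym2 V, (e.map σ).map (rho z) = e := by
    intro e
    rw [Sym2.map_map]
    have : (rho z ∘ σ) = id := funext hσ
    rw [this, Sym2.map_id, id]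
  have hxy' : x ≠ y := fun h => hxy (congrArg _ h)
  have hS2 := hS.2 _ _ hxy hadj col
  have key : ∀ d : Sym2 V, Function.update (fun e => χ (Sym2.map (rho z) e)) s(x, y) col
      (d.map σ) = Function.update χ s(rho z x, rho z y) col d := by
    intro d
    by_cases hd : d = s(rho z x, rho z y)
    · rw [hd, Sym2.map_mk, hσx, hσy, Function.update_self, Function.update_self]
    · have hd' : d.map σ ≠ s(x, y) := by
        intro h4
        apply hd
        rw [← hmap d, h4, Sym2.map_mk]
      rw [Function.update_of_ne hd, Function.update_of_ne hd', hmap]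
  refine hS2.transport σ hσi ?_ ?_
  · intro u v huv
    rw [adj_sup_edge hxy] at huv
    rw [adj_sup_edge hxy']
    rcases huv with huv | huv
    · left
      rw [SimpleGraph.comap_adj, hσ, hσ]
      exact huv
    · right
      have := congrArg (Sym2.map σ) huv
      rwa [Sym2.map_mk, Sym2.map_mk, hσx, hσy] at this
  · intro d₁ _ d₂ _ hd
    rwa [key, key] at hd

theorem clone_free {z u : V} (hz : ∀ v, G.Adj z v ↔ v = u) (hS : ¬ Rb H G χ)
    (hk : k ≤ Fintype.card V) :
    ¬ Rb H (G.comap (rho z)) (fun e => χ (e.map (rho z))) := by
  classical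
  rintro ⟨f, hf1, hf2, hf3⟩
  have hf : IsRb H (G.comap (rho z)) (fun e => χ (e.map (rho z))) f := ⟨hf1, hf2, hf3⟩
  by_cases hboth : (∃ a, f a = none) ∧ ∃ b, f b = some z
  · obtain ⟨⟨a, ha⟩, b, hb⟩ := hboth
    have hab : a ≠ b := by
      rintro rfl
      rw [ha] at hb
      cases hb
    -- neighbours of a, b in H
    have hna : ∀ w, H.Adj a w → rho z (f w) = u := by
      intro w hw
      have := hf2 a w hw
      rw [SimpleGraph.comap_adj, ha] at this
      exact (hz _).1 this
    have hnb : ∀ w, H.Adj b w → rho z (f w) = u := by
      intro w hw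
      have := hf2 b w hw
      rw [SimpleGraph.comap_adj, hb] at this
      exact (hz _).1 this
    have huz : u ≠ z := by
      intro h
      have := (hz u).2 rfl
      rw [h] at this
      exact G.loopless.irrefl z this
    have hfu : ∀ w, rho z (f w) = u → f w = some u := by
      intro w hw
      cases hfw : f w with
      | none =>
        rw [hfw] at hw
        exact absurd hw.symm huz
      | some v =>
        rw [hfw] at hw
        exact congrArg some hw
    -- one of the two is isolated
    obtain ⟨c, hc, hciso⟩ : ∃ c, (c = a ∨ c = b) ∧ ∀ w, ¬ H.Adj c w := by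
      by_contra hcon
      push Not at hcon
      obtain ⟨w1, hw1⟩ := hcon a (Or.inl rfl)
      obtain ⟨w2, hw2⟩ := hcon b (Or.inr rfl)
      have h1 := hfu w1 (hna w1 hw1)
      have h2 := hfu w2 (hnb w2 hw2)
      have h3 : w1 = w2 := hf1 (h1.trans h2.symm)
      subst h3
      have h4 := hf3 s(a, w1) hw1 s(b, w1) hw2 (by
        change χ _ = χ _
        rw [Sym2.map_mk, Sym2.map_mk, Sym2.map_mk, Sym2.map_mk, ha, hb]
        rfl)
      rw [Sym2.eq_iff] at h4
      rcases h4 with ⟨h4, _⟩ | ⟨h4, h5⟩
      · exact hab h4
      · rw [h5] at h4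
        exact hab h4
    -- a free vertex
    obtain ⟨v0, hv0⟩ : ∃ v0 : V, ∀ w, rho z (f w) ≠ v0 := by
      by_contra hcon
      push Not at hcon
      have hsurj : Function.Surjective (fun w => rho z (f w)) := hcon
      have hcard : Fintype.card (Fin k) = Fintype.card V :=
        le_antisymm (by rw [Fintype.card_fin]; exact hk) (Fintype.card_le_of_surjective _ hsurj)
      have hinj := (Fintype.bijective_iff_surjective_and_card _).2 ⟨hsurj, hcard⟩
      apply hab
      apply hinj.1
      change rho z (f a) = rho z (f b)
      rw [ha, hb]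
      rfl
    apply hS
    have hne : ∀ e ∈ H.edgeSet, (e.map (Function.update (rho z ∘ f) c v0)) =
        (e.map f).map (rho z) := by
      intro e he
      rw [Sym2.map_map]
      induction e using Sym2.ind with
      | h x y =>
        have hx : x ≠ c := by
          rintro rfl
          exact hciso y he
        have hy : y ≠ c := by
          rintro rfl
          exact hciso x (SimpleGraph.Adj.symm he)
        rw [Sym2.map_mk, Sym2.map_mk, Function.update_of_ne hx, Function.update_of_ne hy]
    refine ⟨Function.update (rho z ∘ f) c v0, ?_, ?_, ?_⟩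
    · -- injectivity off c
      have hoff : ∀ x y, x ≠ c → y ≠ c → rho z (f x) = rho z (f y) → x = y := by
        intro x y hx hy hxy
        apply hf1
        cases hfx : f x with
        | none =>
          cases hfy : f y with
          | none => rfl
          | some v =>
            rw [hfx, hfy] at hxy
            have h1 : x = a := hf1 (hfx.trans ha.symm)
            have hvz : v = z := hxy.symm
            rw [hvz] at hfy
            have h2 : y = b := hf1 (hfy.trans hb.symm)
            rcases hc with hc | hc
            · exact absurd (h1.trans hc.symm) hx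
            · exact absurd (h2.trans hc.symm) hy
        | some v =>
          cases hfy : f y with
          | none =>
            rw [hfx, hfy] at hxy
            have h1 : y = a := hf1 (hfy.trans ha.symm)
            have hvz : v = z := hxy
            rw [hvz] at hfx
            have h2 : x = b := hf1 (hfx.trans hb.symm)
            rcases hc with hc | hc
            · exact absurd (h1.trans hc.symm) hy
            · exact absurd (h2.trans hc.symm) hx
          | some v' =>
            rw [hfx, hfy] at hxy
            exact congrArg some hxy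
      intro x y hxy
      by_cases hx : x = c <;> by_cases hy : y = c
      · rw [hx, hy]
      · rw [hx, Function.update_self, Function.update_of_ne hy] at hxy
        exact absurd hxy.symm (hv0 y)
      · rw [hy, Function.update_self, Function.update_of_ne hx] at hxy
        exact absurd hxy (hv0 x)
      · rw [Function.update_of_ne hx, Function.update_of_ne hy] at hxy
        exact hoff x y hx hy hxy
    · intro x y hxy
      have hx : x ≠ c := by
        rintro rfl
        exact hciso y hxy
      have hy : y ≠ c := by
        rintro rfl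
        exact hciso x (SimpleGraph.Adj.symm hxy)
      rw [Function.update_of_ne hx, Function.update_of_ne hy]
      exact hf2 x y hxy
    · intro e₁ h₁ e₂ h₂ h
      rw [hne e₁ h₁, hne e₂ h₂] at h
      exact hf3 e₁ h₁ e₂ h₂ h
  · apply hS
    refine (hf.comp (G' := G) (χ' := χ) (rho z) ?_ ?_ ?_).rb
    · intro x y hxy
      cases hfx : f x with
      | none =>
        cases hfy : f y with
        | none => rfl
        | some v =>
          rw [hfx, hfy] at hxy
          have hvz : v = z := hxy.symm
          rw [hvz] at hfy
          exact absurd ⟨⟨x, hfx⟩, ⟨y, hfy⟩⟩ hboth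
      | some v =>
        cases hfy : f y with
        | none =>
          rw [hfx, hfy] at hxy
          have hvz : v = z := hxy
          rw [hvz] at hfx
          exact absurd ⟨⟨y, hfy⟩, ⟨x, hfx⟩⟩ hboth
        | some v' =>
          rw [hfx, hfy] at hxy
          exact congrArg some hxy
    · intro x y hxy
      exact hf2 x y hxy
    · intro e₁ h₁ e₂ h₂ h
      exact h

theorem clone_ncard {z u : V} (hz : ∀ v, G.Adj z v ↔ v = u) :
    (G.comap (rho z)).edgeSet.ncard ≤ G.edgeSet.ncard + 1 := by
  have hsub : (G.comap (rho z)).edgeSet ⊆ (Sym2.map some '' G.edgeSet) ∪ {s(none, some u)} := by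
    intro d hd
    induction d using Sym2.ind with
    | h x y =>
      have hd' : G.Adj (rho z x) (rho z y) := hd
      rcases x with _ | v <;> rcases y with _ | w
      · exact absurd hd' (G.loopless.irrefl z)
      · right
        have := (hz w).1 hd'
        rw [this]
        rfl
      · right
        have := (hz v).1 (SimpleGraph.Adj.symm hd')
        rw [this]
        exact Sym2.eq_swap
      · left
        exact ⟨s(v, w), hd', rfl⟩
  refine (Set.ncard_le_ncard hsub (Set.toFinite _)).trans ((Set.ncard_union_le _ _).trans ?_)
  rw [Set.ncard_singleton]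
  exact Nat.add_le_add_right (Set.ncard_image_le (Set.toFinite _)) _

/-- doubling a leaf -/
theorem clone {z u : V} (hz : ∀ v, G.Adj z v ↔ v = u) (hS : Sat H G χ)
    (hk : k ≤ Fintype.card V) :
    ∃ (G' : SimpleGraph (Option V)) (χ' : Sym2 (Option V) → ℕ), Sat H G' χ' ∧
      G'.edgeSet.ncard ≤ G.edgeSet.ncard + 2 ∧
      (∀ v w, G'.Adj (some v) (some w) ↔ G.Adj v w) ∧
      (∀ v, G'.Adj (some v) none → v = z ∨ v = u) ∧
      (∀ e : Sym2 V, χ' (e.map some) = χ e) := by
  classical
  have hfree := clone_free hz hS.1 hk
  have hne : (none : Option V) ≠ some z := by simp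
  have hmap : ∀ e : Sym2 V, (e.map some).map (rho z) = e := by
    intro e
    rw [Sym2.map_map]
    have : (rho z ∘ some) = id := rfl
    rw [this, Sym2.map_id, id]
  have hmap2 : ∀ e : Sym2 V, e.map some ≠ s(none, some z) := by
    intro e h
    have h1 : (none : Option V) ∈ e.map some := by
      rw [h]
      exact Sym2.mem_mk_left _ _
    rw [Sym2.mem_map] at h1
    obtain ⟨a, _, ha⟩ := h1
    cases ha
  by_cases hall : ∀ col : ℕ, Rb H (G.comap (rho z) ⊔ SimpleGraph.fromEdgeSet {s(none, some z)})
      (Function.update (fun e => χ (e.map (rho z))) s(none, some z) col)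
  · refine ⟨G.comap (rho z), fun e => χ (e.map (rho z)), ⟨hfree, ?_⟩, ?_, ?_, ?_, ?_⟩
    · intro x y hxy hadj col
      by_cases hr : rho z x = rho z y
      · rcases x with _ | v <;> rcases y with _ | w
        · exact absurd rfl hxy
        · have hw : w = z := hr.symm
          rw [hw]
          exact hall col
        · have hv : v = z := hr
          rw [hv, Sym2.eq_swap]
          exact hall col
        · exact absurd (congrArg some hr) hxy
      · exact clone_sect hS hr hadj col
    · exact (clone_ncard hz).trans (Nat.le_succ _)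
    · intro v w
      exact Iff.rfl
    · intro v hv
      right
      exact (hz v).1 (SimpleGraph.Adj.symm hv)
    · intro e
      exact congrArg χ (hmap e)
  · push Not at hall
    obtain ⟨c0, hc0⟩ := hall
    refine ⟨_, _, ⟨hc0, ?_⟩, ?_, ?_, ?_, ?_⟩
    · intro x y hxy hadj col
      have hadj' : ¬ (G.comap (rho z)).Adj x y ∧ s(x, y) ≠ s(none, some z) := by
        rw [adj_sup_edge hne] at hadj
        push Not at hadj
        exact hadj
      have hr : rho z x ≠ rho z y := by
        intro hr
        rcases x with _ | v <;> rcases y with _ | w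
        · exact absurd rfl hxy
        · have hw : w = z := hr.symm
          rw [hw] at hadj'
          exact hadj'.2 rfl
        · have hv : v = z := hr
          rw [hv] at hadj'
          exact hadj'.2 Sym2.eq_swap
        · exact absurd (congrArg some hr) hxy
      have h1 := clone_sect hS hr hadj'.1 col
      have hcol : ∀ d ∈ (G.comap (rho z) ⊔ SimpleGraph.fromEdgeSet {s(x, y)}).edgeSet,
          Function.update (Function.update (fun e => χ (e.map (rho z))) s(none, some z) c0)
            s(x, y) col d = Function.update (fun e => χ (e.map (rho z))) s(x, y) col d := by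
        intro d hd
        rw [mem_edgeSet_sup_edge hxy] at hd
        by_cases hd1 : d = s(x, y)
        · rw [hd1, Function.update_self, Function.update_self]
        · rw [Function.update_of_ne hd1, Function.update_of_ne hd1]
          have hd2 : d ≠ s(none, some z) := by
            rintro rfl
            rcases hd with hd | hd
            · exact absurd hd (G.loopless.irrefl z)
            · exact hd1 hd
          rw [Function.update_of_ne hd2]
      refine h1.transport id Function.injective_id ?_ ?_
      · intro v w hvw
        rw [adj_sup_edge hxy] at hvw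
        rw [adj_sup_edge hxy, adj_sup_edge hne]
        rcases hvw with hvw | hvw
        · exact Or.inl (Or.inl hvw)
        · exact Or.inr hvw
      · intro d₁ h₁ d₂ h₂ h
        rw [Sym2.map_id, id, id, hcol d₁ h₁, hcol d₂ h₂] at h
        exact h
    · have hsub : (G.comap (rho z) ⊔ SimpleGraph.fromEdgeSet {s(none, some z)}).edgeSet ⊆
          (G.comap (rho z)).edgeSet ∪ {s(none, some z)} := by
        intro d hd
        rw [mem_edgeSet_sup_edge hne] at hd
        exact hd
      refine (Set.ncard_le_ncard hsub (Set.toFinite _)).trans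
        ((Set.ncard_union_le _ _).trans ?_)
      rw [Set.ncard_singleton]
      have := clone_ncard hz
      omega
    · intro v w
      rw [adj_sup_edge hne]
      constructor
      · rintro (h | h)
        · exact h
        · exact absurd h (hmap2 s(v, w))
      · intro h
        exact Or.inl h
    · intro v hv
      rw [adj_sup_edge hne] at hv
      rcases hv with hv | hv
      · right
        exact (hz v).1 (SimpleGraph.Adj.symm hv)
      · left
        rw [Sym2.eq_iff] at hv
        rcases hv with ⟨h, _⟩ | ⟨h, _⟩
        · cases h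
        · exact Option.some_injective _ h
    · intro e
      rw [Function.update_of_ne (hmap2 e)]
      exact congrArg χ (hmap e)

end clone

theorem HasFam.clone {p : ℕ} {P : Pat p} {m n e : ℕ} (h : HasFam H P (m + 1) n e) (hk : k ≤ n)
    {a0 b0 : Fin p} (hleaf : ∀ b, P.T.Adj a0 b ↔ b = b0) :
    HasFam H P m (n + 1) (e + 2) := by
  classical
  obtain ⟨V, _, _, G, χ, φ, h1, h2, h3, h4⟩ := h
  have hz : ∀ v, G.Adj (φ (Fin.last m) a0) v ↔ v = φ (Fin.last m) b0 := by
    intro v
    constructor
    · intro hv
      obtain ⟨b, rfl⟩ := h4.closed _ _ _ hv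
      rw [(hleaf b).1 ((h4.adj _ _ _).1 hv)]
    · rintro rfl
      exact (h4.adj _ _ _).2 ((hleaf b0).2 rfl)
  obtain ⟨G', χ', g1, g2, g3, g4, g5⟩ := Pool.Agent.Helper28.RS.clone hz h3 (by rw [h1]; exact hk)
  refine ⟨Option V, inferInstance, inferInstance, G', χ',
    fun i a => some (φ i.castSucc a), ?_, ?_, ?_, ?_⟩
  · rw [Fintype.card_option, h1]
  · omega
  · convert g1
  · have hlast : ∀ (i : Fin m) a b, φ i.castSucc a ≠ φ (Fin.last m) b := by
      intro i a b h
      exact absurd (h4.inj _ _ _ _ h).1 (Fin.castSucc_lt_last i).ne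
    have hmap : ∀ (i : Fin m) (e : Sym2 (Fin p)),
        χ' (e.map (fun a => some (φ i.castSucc a))) = χ (e.map (φ i.castSucc)) := by
      intro i e
      rw [← g5, Sym2.map_map]
      rfl
    constructor
    · intro i j a b h
      have := h4.inj _ _ _ _ (Option.some_injective _ h)
      exact ⟨Fin.castSucc_injective m this.1, this.2⟩
    · intro i a b
      rw [g3]
      exact h4.adj _ _ _
    · rintro i a (_ | v) h
      · rcases g4 _ h with h | h
        · exact absurd h (hlast i a _)
        · exact absurd h (hlast i a _)
      · obtain ⟨b, hb⟩ := h4.closed _ _ _ ((g3 _ _).1 h)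
        exact ⟨b, congrArg some hb⟩
    · intro i e he
      rw [hmap]
      exact h4.kern _ e he
    · intro i e he e' he'
      rw [hmap, hmap]
      exact h4.pat _ e he e' he'
    · intro i j e he e' he' h
      rw [hmap, hmap] at h
      exact Fin.castSucc_injective m (h4.petdisj _ _ _ he _ he' h)

theorem HasFam.clones {p : ℕ} {P : Pat p} {m n e : ℕ} (hk : k ≤ n)
    {a0 b0 : Fin p} (hleaf : ∀ b, P.T.Adj a0 b ↔ b = b0) (j : ℕ)
    (h : HasFam H P (m + j) n e) : HasFam H P m (n + j) (e + 2 * j) := by
  induction j generalizing m with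
  | zero => simpa using h
  | succ j ih =>
    have h1 : HasFam H P (m + 1 + j) n e := by
      rw [show m + 1 + j = m + (j + 1) by omega]
      exact h
    have h2 := (ih h1).clone (by omega) hleaf
    rw [show n + (j + 1) = n + j + 1 by omega, show e + 2 * (j + 1) = e + 2 * j + 2 by omega]
    exact h2

end Pool.Agent.Helper28.RS
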