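import Mathlib

/-! A sunflower lemma for colour vectors. -/

set_option autoImplicit false

namespace Pool.Agent.Helper28.RS

open Finset

/-- the conclusion of the sunflower lemma -/
def Flower {ι E : Type*} (x : ι → E → ℕ) (B : ℕ) (S : Finset ι) : Prop :=
  ∃ S' ⊆ S, B ≤ S'.card ∧ ∃ (pet : Set E) (κ : E → ℕ),
    (∀ i ∈ S', ∀ e, e ∉ pet → x i e = κ e) ∧
    (∀ i ∈ S', ∀ e ∈ pet, ∀ e' ∈ pet, (x i e = x i e' ↔ κ e = κ e')) ∧
    (∀ i ∈ S', ∀ j ∈ S', ∀ e ∈ pet, ∀ e' ∈ pet, x i e = x j e' → i = j)

theorem flower_aux {E : Type*} [Fintype E] [DecidableEq E] (B : ℕ) (hB : 1 ≤ B) :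
    ∀ (N : ℕ) (F : Finset E), F.card = N → ∃ M : ℕ, ∀ {ι : Type} [DecidableEq ι]
      (x : ι → E → ℕ) (κ : E → ℕ) (S : Finset ι), M ≤ S.card →
      (∀ i ∈ S, ∀ e, e ∉ F → x i e = κ e) → Flower x B S := by
  classical
  intro N
  induction N with
  | zero =>
    intro F hF
    refine ⟨B, ?_⟩
    intro ι _ x κ S hS hk
    rw [Finset.card_eq_zero] at hF
    subst hF
    refine ⟨S, subset_rfl, hS, ∅, κ, ?_, ?_, ?_⟩
    · intro i hi e _
      exact hk i hi e (Finset.notMem_empty e)
    · intro i _ e he
      exact absurd he (Set.notMem_empty e)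
    · intro i _ j _ e he
      exact absurd he (Set.notMem_empty e)
  | succ N ih =>
    intro F hF
    have hne : F.Nonempty := Finset.card_pos.1 (by omega)
    -- the bounds for the smaller sets
    have ih' : ∀ e : E, ∃ M : ℕ, e ∈ F → ∀ {ι : Type} [DecidableEq ι]
        (x : ι → E → ℕ) (κ : E → ℕ) (S : Finset ι), M ≤ S.card →
        (∀ i ∈ S, ∀ e', e' ∉ F.erase e → x i e' = κ e') → Flower x B S := by
      intro e
      by_cases he : e ∈ F
      · obtain ⟨M, hM⟩ := ih (F.erase e) (by rw [Finset.card_erase_of_mem he, hF]; rfl)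
        exact ⟨M, fun _ => hM⟩
      · exact ⟨0, fun h => absurd h he⟩
    choose Mf hMf using ih'
    let M0 : ℕ := ∑ e ∈ F, Mf e
    have hM0 : ∀ e ∈ F, Mf e ≤ M0 := fun e he =>
      Finset.single_le_sum (f := Mf) (fun _ _ => Nat.zero_le _) he
    let K : ℕ := Fintype.card (Finset (E × E))
    let Q : ℕ := F.card * (K * B * F.card)
    refine ⟨K * B + Q * M0 + 1, ?_⟩
    intro ι _ x κ S hS hk
    -- a maximal family with disjoint petals
    let disj : Finset ι → Prop := fun T => ∀ i ∈ T, ∀ j ∈ T, ∀ e ∈ F, ∀ e' ∈ F,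
      x i e = x j e' → i = j
    have hP : (S.powerset.filter disj).Nonempty :=
      ⟨∅, Finset.mem_filter.2 ⟨Finset.empty_mem_powerset S, fun i hi => absurd hi
        (Finset.notMem_empty i)⟩⟩
    obtain ⟨T, hT, hmax⟩ := Finset.exists_max_image _ Finset.card hP
    rw [Finset.mem_filter, Finset.mem_powerset] at hT
    obtain ⟨hTS, hTd⟩ := hT
    by_cases hbig : K * B ≤ T.card
    · -- pigeonhole on the equality pattern
      let pt : ι → Finset (E × E) := fun i => Finset.univ.filter fun q => x i q.1 = x i q.2
      obtain ⟨y, _, hy⟩ := Finset.exists_le_card_fiber_of_mul_le_card_of_maps_to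
        (s := T) (t := (Finset.univ : Finset (Finset (E × E)))) (f := pt) (n := B)
        (fun _ _ => Finset.mem_univ _) ⟨∅, Finset.mem_univ _⟩ (by
          rw [Finset.card_univ]
          exact hbig)
      let S' := T.filter fun i => pt i = y
      have hS'T : S' ⊆ T := Finset.filter_subset _ _
      have hne' : S'.Nonempty := Finset.card_pos.1 (by
        have : B ≤ S'.card := hy
        omega)
      obtain ⟨i0, hi0⟩ := hne'
      refine ⟨S', hS'T.trans hTS, hy, (F : Set E), fun e => x i0 e, ?_, ?_, ?_⟩
      · intro i hi e he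
        have he' : e ∉ F := fun h => he h
        change x i e = x i0 e
        rw [hk i (hTS (hS'T hi)) e he', hk i0 (hTS (hS'T hi0)) e he']
      · intro i hi e _ e' _
        have h1 : pt i = y := (Finset.mem_filter.1 hi).2
        have h2 : pt i0 = y := (Finset.mem_filter.1 hi0).2
        have h3 : ((e, e') : E × E) ∈ pt i ↔ ((e, e') : E × E) ∈ pt i0 := by rw [h1, h2]
        have h4 : ∀ j, ((e, e') : E × E) ∈ pt j ↔ x j e = x j e' := by
          intro j
          simp [pt]
        rw [h4, h4] at h3
        exact h3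
      · intro i hi j hj e he e' he' h
        exact hTd i (hS'T hi) j (hS'T hj) e he e' he' h
    · push Not at hbig
      -- each member shares a colour with a member of T
      have hcov : ∀ i ∈ S, ∃ q : E × (ι × E), q.1 ∈ F ∧ q.2.1 ∈ T ∧ q.2.2 ∈ F ∧
          x i q.1 = x q.2.1 q.2.2 := by
        intro i hi
        by_cases hiT : i ∈ T
        · obtain ⟨e, he⟩ := hne
          exact ⟨(e, (i, e)), he, hiT, he, rfl⟩
        · by_contra hcon
          push Not at hcon
          have hins : insert i T ∈ S.powerset.filter disj := by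
            rw [Finset.mem_filter, Finset.mem_powerset]
            refine ⟨Finset.insert_subset hi hTS, ?_⟩
            intro a ha b hb e he e' he' h
            rw [Finset.mem_insert] at ha hb
            rcases ha with rfl | ha <;> rcases hb with rfl | hb
            · rfl
            · exact absurd h (hcon (e, (b, e')) he hb he')
            · exact absurd h.symm (hcon (e', (a, e)) he' ha he)
            · exact hTd a ha b hb e he e' he' h
          have := hmax _ hins
          rw [Finset.card_insert_of_notMem hiT] at this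
          omega
      have hcov' : ∀ i, ∃ q : E × (ι × E), i ∈ S → q.1 ∈ F ∧ q.2.1 ∈ T ∧ q.2.2 ∈ F ∧
          x i q.1 = x q.2.1 q.2.2 := by
        intro i
        by_cases hi : i ∈ S
        · obtain ⟨q, hq⟩ := hcov i hi
          exact ⟨q, fun _ => hq⟩
        · obtain ⟨e, he⟩ := hne
          exact ⟨(e, (i, e)), fun h => absurd h hi⟩
      choose q hq using hcov'
      have hcard : (F ×ˢ (T ×ˢ F)).card ≤ Q := by
        rw [Finset.card_product, Finset.card_product]
        refine Nat.mul_le_mul_left _ (Nat.mul_le_mul_right _ ?_)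
        exact hbig.le
      have hTne : T.Nonempty := by
        have : 0 < S.card := by omega
        obtain ⟨i, hi⟩ := Finset.card_pos.1 this
        exact ⟨(q i).2.1, (hq i hi).2.1⟩
      have hpne : (F ×ˢ (T ×ˢ F)).Nonempty :=
        hne.product (hTne.product hne)
      obtain ⟨y, hyF, hy⟩ := Finset.exists_le_card_fiber_of_mul_le_card_of_maps_to
        (s := S) (t := F ×ˢ (T ×ˢ F)) (f := q) (n := M0)
        (fun i hi => by
          rw [Finset.mem_product, Finset.mem_product]
          exact ⟨(hq i hi).1, (hq i hi).2.1, (hq i hi).2.2.1⟩) hpne (by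
          calc (F ×ˢ (T ×ˢ F)).card * M0 ≤ Q * M0 := Nat.mul_le_mul_right _ hcard
            _ ≤ S.card := by omega)
      rw [Finset.mem_product, Finset.mem_product] at hyF
      have hfl := hMf y.1 hyF.1 x (Function.update κ y.1 (x y.2.1 y.2.2))
        (S.filter fun i => q i = y) ((hM0 _ hyF.1).trans hy) (by
          intro i hi e' he'
          rw [Finset.mem_filter] at hi
          by_cases h : e' = y.1
          · rw [h, Function.update_self, ← hi.2]
            exact (hq i hi.1).2.2.2
          · rw [Function.update_of_ne h]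
            apply hk i hi.1
            intro h2
            exact he' (Finset.mem_erase.2 ⟨h, h2⟩))
      obtain ⟨S', h1, h2⟩ := hfl
      exact ⟨S', h1.trans (Finset.filter_subset _ _), h2⟩

/-- sunflower lemma for colour vectors -/
theorem flower (E : Type*) [Fintype E] (B : ℕ) : ∃ M : ℕ, ∀ {ι : Type} (x : ι → E → ℕ)
    (S : Finset ι), M ≤ S.card → Flower x B S := by
  classical
  obtain ⟨M, hM⟩ := flower_aux (E := E) (B + 1) (by omega) _ Finset.univ rfl
  refine ⟨M, fun x S hS => ?_⟩
  obtain ⟨S', h1, h2, h3⟩ := hM x (fun _ => 0) S hS (fun i _ e he => absurd (Finset.mem_univ e) he)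
  exact ⟨S', h1, by omega, h3⟩

end Pool.Agent.Helper28.RS
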