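import Pool.Agent.Helper28.RS.Clone
import Pool.Agent.Helper28.RS.Sunflower

/-! Rainbow saturation: counting components. -/

set_option autoImplicit false

namespace Pool.Agent.Helper28.RS

open SimpleGraph Finset

section count

open Classical in
/-- degree -/
noncomputable def dg {V : Type*} [Fintype V] (G : SimpleGraph V) (v : V) : ℕ :=
  (Finset.univ.filter fun w => G.Adj v w).card

theorem sum_dg {V : Type*} [Fintype V] (G : SimpleGraph V) :
    ∑ v, dg G v = 2 * G.edgeSet.ncard := by
  classical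
  have h1 := G.sum_degrees_eq_twice_card_edges
  have h2 : G.edgeSet.ncard = G.edgeFinset.card := by
    rw [← SimpleGraph.coe_edgeFinset, Set.ncard_coe_finset]
  rw [h2, ← h1]
  refine Finset.sum_congr rfl fun v _ => ?_
  rw [← SimpleGraph.card_neighborFinset_eq_degree]
  unfold dg
  congr 1
  ext w
  rw [SimpleGraph.mem_neighborFinset, Finset.mem_filter]
  simp

open Classical in
/-- vertices of a component -/
noncomputable def cs {V : Type*} [Fintype V] (G : SimpleGraph V) (c : G.ConnectedComponent) :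
    Finset V :=
  Finset.univ.filter fun v => G.connectedComponentMk v = c

theorem mem_cs {V : Type*} [Fintype V] {G : SimpleGraph V} {c : G.ConnectedComponent} {v : V} :
    v ∈ cs G c ↔ G.connectedComponentMk v = c := by
  classical
  unfold cs
  rw [Finset.mem_filter]
  simp

theorem comap_reach {V : Type*} {G : SimpleGraph V} {s : ℕ} {φ : Fin s → V}
    (hinj : Function.Injective φ)
    (hcl : ∀ a v, G.Adj (φ a) v → ∃ b, φ b = v) {u v : V} (p : G.Walk u v) :
    ∀ a b, φ a = u → φ b = v → (G.comap φ).Reachable a b := by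
  induction p with
  | nil =>
    intro a b ha hb
    rw [hinj (ha.trans hb.symm)]
  | cons h p ih =>
    intro a b ha hb
    rw [← ha] at h
    obtain ⟨d, hd⟩ := hcl a _ h
    have h1 : (G.comap φ).Adj a d := by
      rw [SimpleGraph.comap_adj, hd]
      exact h
    exact h1.reachable.trans (ih d b hd hb)

/-- a component as a graph on `Fin s` -/
theorem comp_embed {V : Type*} [Fintype V] (G : SimpleGraph V) (c : G.ConnectedComponent) {s : ℕ}
    (hs : (cs G c).card = s) :
    ∃ φ : Fin s → V, Function.Injective φ ∧ (∀ v, G.connectedComponentMk v = c ↔ ∃ a, φ a = v) ∧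
      (G.comap φ).Connected ∧ ∑ v ∈ cs G c, dg G v = 2 * (G.comap φ).edgeSet.ncard := by
  classical
  let e : (cs G c) ≃ Fin s := Finset.equivFinOfCardEq hs
  let φ : Fin s → V := fun a => (e.symm a).1
  have hinj : Function.Injective φ := fun a b h => e.symm.injective (Subtype.ext h)
  have hmem : ∀ v, G.connectedComponentMk v = c ↔ ∃ a, φ a = v := by
    intro v
    constructor
    · intro h
      exact ⟨e ⟨v, mem_cs.2 h⟩, by simp [φ]⟩
    · rintro ⟨a, rfl⟩
      exact mem_cs.1 (e.symm a).2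
  have hcl : ∀ a v, G.Adj (φ a) v → ∃ b, φ b = v := by
    intro a v h
    rw [← hmem, ← (hmem (φ a)).2 ⟨a, rfl⟩]
    exact (SimpleGraph.ConnectedComponent.sound h.reachable).symm
  refine ⟨φ, hinj, hmem, ?_, ?_⟩
  · rw [SimpleGraph.connected_iff]
    constructor
    · intro a b
      have h1 : G.Reachable (φ a) (φ b) := by
        rw [← SimpleGraph.ConnectedComponent.eq, (hmem (φ a)).2 ⟨a, rfl⟩, (hmem (φ b)).2 ⟨b, rfl⟩]
      obtain ⟨p⟩ := h1
      exact comap_reach hinj hcl p a b rfl rfl
    · obtain ⟨v, hv⟩ := c.exists_rep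
      obtain ⟨a, _⟩ := (hmem v).1 hv
      exact ⟨a⟩
  · have himg : cs G c = Finset.univ.image φ := by
      ext v
      rw [mem_cs, hmem, Finset.mem_image]
      simp
    rw [himg, Finset.sum_image (fun a _ b _ h => hinj h), ← sum_dg]
    refine Finset.sum_congr rfl fun a _ => ?_
    unfold dg
    rw [← Finset.card_image_of_injective _ hinj]
    congr 1
    ext w
    rw [Finset.mem_filter, Finset.mem_image]
    constructor
    · rintro ⟨_, h⟩
      obtain ⟨b, hb⟩ := hcl a w h
      refine ⟨b, Finset.mem_filter.2 ⟨Finset.mem_univ _, ?_⟩, hb⟩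
      rw [SimpleGraph.comap_adj, hb]
      exact h
    · rintro ⟨b, hb, rfl⟩
      exact ⟨Finset.mem_univ _, (Finset.mem_filter.1 hb).2⟩

theorem cs_card_pos {V : Type*} [Fintype V] (G : SimpleGraph V) (c : G.ConnectedComponent) :
    0 < (cs G c).card := by
  obtain ⟨v, hv⟩ := c.exists_rep
  exact Finset.card_pos.2 ⟨v, mem_cs.2 hv⟩

theorem comp_edges {V : Type*} [Fintype V] (G : SimpleGraph V) (c : G.ConnectedComponent) :
    2 * (cs G c).card ≤ ∑ v ∈ cs G c, dg G v + 2 := by
  obtain ⟨φ, _, _, h3, h4⟩ := comp_embed G c rfl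
  have h5 := h3.card_vert_le_card_edgeSet_add_one
  rw [Nat.card_eq_fintype_card, Fintype.card_fin, Nat.card_coe_set_eq] at h5
  omega

open Classical in
/-- tree components with `s` vertices -/
noncomputable def trees {V : Type*} [Fintype V] (G : SimpleGraph V) (s : ℕ) :
    Finset G.ConnectedComponent :=
  haveI : Fintype G.ConnectedComponent := Fintype.ofFinite _
  Finset.univ.filter fun c => (cs G c).card = s ∧ ∑ v ∈ cs G c, dg G v < 2 * s

theorem mem_trees {V : Type*} [Fintype V] {G : SimpleGraph V} {s : ℕ} {c : G.ConnectedComponent} :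
    c ∈ trees G s ↔ (cs G c).card = s ∧ ∑ v ∈ cs G c, dg G v < 2 * s := by
  classical
  unfold trees
  rw [Finset.mem_filter]
  simp

theorem count {V : Type*} [Fintype V] (G : SimpleGraph V) (q : ℕ) :
    2 * q * Fintype.card V ≤ 2 * q * G.edgeSet.ncard + 2 * q * ∑ s ∈ range q, (trees G s).card +
      2 * Fintype.card V := by
  classical
  haveI : Fintype G.ConnectedComponent := Fintype.ofFinite _
  have h1 : Fintype.card V = ∑ c : G.ConnectedComponent, (cs G c).card := by
    have := Finset.sum_fiberwise (Finset.univ : Finset V) (fun v => G.connectedComponentMk v)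
      (fun _ => 1)
    rw [Finset.sum_const, Finset.card_univ, smul_eq_mul, mul_one] at this
    rw [← this]
    refine Finset.sum_congr rfl fun c _ => ?_
    rw [Finset.sum_const, smul_eq_mul, mul_one]
    unfold cs
    congr
  have h2 : 2 * G.edgeSet.ncard = ∑ c : G.ConnectedComponent, ∑ v ∈ cs G c, dg G v := by
    rw [← sum_dg]
    have := Finset.sum_fiberwise (Finset.univ : Finset V) (fun v => G.connectedComponentMk v)
      (fun v => dg G v)
    rw [← this]
    refine Finset.sum_congr rfl fun c _ => ?_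
    unfold cs
    congr
  let A : Finset G.ConnectedComponent := Finset.univ.filter fun c =>
    ∑ v ∈ cs G c, dg G v < 2 * (cs G c).card ∧ (cs G c).card < q
  have h3 : A.card = ∑ s ∈ range q, (trees G s).card := by
    have hmaps : Set.MapsTo (fun c => (cs G c).card) (A : Set G.ConnectedComponent)
        ((range q : Finset ℕ) : Set ℕ) := by
      intro c hc
      have : c ∈ A := hc
      rw [Finset.mem_filter] at this
      exact Finset.mem_coe.2 (Finset.mem_range.2 this.2.2)
    rw [Finset.card_eq_sum_card_fiberwise hmaps]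
    refine Finset.sum_congr rfl fun s hs => ?_
    congr 1
    ext c
    rw [mem_trees, Finset.mem_filter, Finset.mem_filter]
    rw [Finset.mem_range] at hs
    constructor
    · rintro ⟨⟨_, h, _⟩, h'⟩
      have h' : (cs G c).card = s := h'
      exact ⟨h', h' ▸ h⟩
    · rintro ⟨h, h'⟩
      exact ⟨⟨Finset.mem_univ _, by rw [h]; exact h', by rw [h]; exact hs⟩, h⟩
  have h4 : ∀ c : G.ConnectedComponent, 2 * q * (cs G c).card ≤
      q * ∑ v ∈ cs G c, dg G v + 2 * q * (if c ∈ A then 1 else 0) + 2 * (cs G c).card := by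
    intro c
    have h5 := comp_edges G c
    by_cases hA : c ∈ A
    · rw [if_pos hA]
      nlinarith
    · rw [if_neg hA, mul_zero, add_zero]
      rw [Finset.mem_filter] at hA
      push Not at hA
      have hA' := hA (Finset.mem_univ c)
      by_cases h6 : ∑ v ∈ cs G c, dg G v < 2 * (cs G c).card
      · have h7 := hA' h6
        nlinarith
      · push Not at h6
        nlinarith
  have h5 : ∑ c : G.ConnectedComponent, (if c ∈ A then 1 else 0) = A.card := by
    rw [Finset.sum_ite_mem, Finset.univ_inter, Finset.sum_const, smul_eq_mul, mul_one]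
  calc 2 * q * Fintype.card V = ∑ c : G.ConnectedComponent, 2 * q * (cs G c).card := by
        rw [h1, Finset.mul_sum]
    _ ≤ ∑ c : G.ConnectedComponent, (q * ∑ v ∈ cs G c, dg G v +
          2 * q * (if c ∈ A then 1 else 0) + 2 * (cs G c).card) :=
        Finset.sum_le_sum fun c _ => h4 c
    _ = q * (2 * G.edgeSet.ncard) + 2 * q * A.card + 2 * Fintype.card V := by
        rw [Finset.sum_add_distrib, Finset.sum_add_distrib, ← Finset.mul_sum, ← Finset.mul_sum,
          ← Finset.mul_sum, h5, ← h1, ← h2]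
    _ = 2 * q * G.edgeSet.ncard + 2 * q * ∑ s ∈ range q, (trees G s).card +
          2 * Fintype.card V := by
        rw [h3]
        ring

end count

variable {k : ℕ} {H : SimpleGraph (Fin k)}

/-- the number of tree components with `s` vertices is bounded -/
def Bd {k : ℕ} (H : SimpleGraph (Fin k)) (s M : ℕ) : Prop :=
  ∀ (n : ℕ) (G : SimpleGraph (Fin n)) (χ : Sym2 (Fin n) → ℕ), Sat H G χ → (trees G s).card ≤ M

theorem bd_zero : Bd H 0 0 := by
  intro n G χ _
  rw [Nat.le_zero, Finset.card_eq_zero, Finset.eq_empty_iff_forall_notMem]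
  intro c hc
  have := cs_card_pos G c
  rw [(mem_trees.1 hc).1] at this
  omega

theorem lower_bound {q : ℕ} (h : ∀ s < q, ∃ M, Bd H s M) :
    ∃ C : ℕ, ∀ (n : ℕ) (G : SimpleGraph (Fin n)) (χ : Sym2 (Fin n) → ℕ), Sat H G χ →
      q * n ≤ q * G.edgeSet.ncard + C + n := by
  classical
  have h' : ∀ s, ∃ M, s < q → Bd H s M := by
    intro s
    by_cases hs : s < q
    · obtain ⟨M, hM⟩ := h s hs
      exact ⟨M, fun _ => hM⟩
    · exact ⟨0, fun h => absurd h hs⟩
  choose M hM using h'
  refine ⟨q * ∑ s ∈ range q, M s, fun n G χ hS => ?_⟩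
  have h1 := count G q
  rw [Fintype.card_fin] at h1
  have h2 : ∑ s ∈ range q, (trees G s).card ≤ ∑ s ∈ range q, M s :=
    Finset.sum_le_sum fun s hs => hM s (Finset.mem_range.1 hs) n G χ hS
  nlinarith [Nat.mul_le_mul_left (2 * q) h2]

/-- many tree components give a family -/
theorem exists_fam {p : ℕ} (hB : ¬ ∃ M, Bd H p M) (m : ℕ) :
    ∃ (P : Pat p) (n e : ℕ), HasFam H P m n e ∧ P.T.Connected ∧ P.T.edgeSet.ncard + 1 ≤ p := by
  classical
  obtain ⟨M1, hM1⟩ := flower (Sym2 (Fin p)) (m + 1)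
  have h1 : ¬ Bd H p (Fintype.card (SimpleGraph (Fin p)) * (M1 + 1)) := fun h => hB ⟨_, h⟩
  unfold Bd at h1
  push Not at h1
  obtain ⟨n, G, χ, hS, hcard⟩ := h1
  -- parametrizations
  have hex : ∀ c : G.ConnectedComponent, ∃ φ : Fin p → Fin n, c ∈ trees G p →
      Function.Injective φ ∧ (∀ v, G.connectedComponentMk v = c ↔ ∃ a, φ a = v) ∧
      (G.comap φ).Connected ∧ (G.comap φ).edgeSet.ncard + 1 ≤ p := by
    intro c
    by_cases hc : c ∈ trees G p
    · obtain ⟨h2, h3⟩ := mem_trees.1 hc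
      obtain ⟨φ, g1, g2, g3, g4⟩ := comp_embed G c h2
      exact ⟨φ, fun _ => ⟨g1, g2, g3, by omega⟩⟩
    · by_cases hn : Nonempty (Fin p → Fin n)
      · exact ⟨hn.some, fun h => absurd h hc⟩
      · have hT : (trees G p).Nonempty := Finset.card_pos.1 (by omega)
        obtain ⟨c', hc'⟩ := hT
        obtain ⟨h2, h3⟩ := mem_trees.1 hc'
        obtain ⟨φ, _⟩ := comp_embed G c' h2
        exact absurd ⟨φ⟩ hn
  choose φ hφ using hex
  obtain ⟨T, _, hT⟩ := Finset.exists_le_card_fiber_of_mul_le_card_of_maps_to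
    (s := trees G p) (t := (Finset.univ : Finset (SimpleGraph (Fin p)))) (f := fun c => G.comap (φ c))
    (n := M1 + 1) (fun _ _ => Finset.mem_univ _) ⟨⊥, Finset.mem_univ _⟩ (by
      rw [Finset.card_univ]
      exact hcard.le)
  obtain ⟨S', hS', hcard', pet, κ, f1, f2, f3⟩ := hM1 (fun c e => χ (e.map (φ c)))
    ((trees G p).filter fun c => G.comap (φ c) = T) (by
      have : M1 + 1 ≤ ((trees G p).filter fun c => G.comap (φ c) = T).card := hT
      omega)
  have hmem : ∀ c ∈ S', c ∈ trees G p ∧ G.comap (φ c) = T := fun c hc =>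
    Finset.mem_filter.1 (hS' hc)
  let P : Pat p := ⟨T, κ, pet⟩
  obtain ⟨S2, hS2, hcard2⟩ := Finset.exists_subset_card_eq (show m ≤ S'.card by omega)
  let e : S2 ≃ Fin m := Finset.equivFinOfCardEq hcard2
  let ψ : Fin m → G.ConnectedComponent := fun i => (e.symm i).1
  have hψ : ∀ i, ψ i ∈ S' := fun i => hS2 (e.symm i).2
  have hψi : Function.Injective ψ := fun i j h => e.symm.injective (Subtype.ext h)
  have hne : S'.Nonempty := Finset.card_pos.1 (by omega)
  obtain ⟨c0, hc0⟩ := hne
  refine ⟨P, n, G.edgeSet.ncard, ⟨Fin n, inferInstance, inferInstance, G, χ, fun i => φ (ψ i),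
    Fintype.card_fin n, le_rfl, hS, ?_⟩, ?_, ?_⟩
  · constructor
    · intro i j a b h
      have hi := (hφ _ (hmem _ (hψ i)).1).2.1 (φ (ψ i) a)
      have hj := (hφ _ (hmem _ (hψ j)).1).2.1 (φ (ψ j) b)
      have h1 : G.connectedComponentMk (φ (ψ i) a) = ψ i := hi.2 ⟨a, rfl⟩
      have h2 : G.connectedComponentMk (φ (ψ j) b) = ψ j := hj.2 ⟨b, rfl⟩
      rw [h, h2] at h1
      have h3 := hψi h1
      subst h3
      exact ⟨rfl, (hφ _ (hmem _ (hψ j)).1).1 h⟩
    · intro i a b
      have h1 : G.comap (φ (ψ i)) = T := (hmem _ (hψ i)).2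
      change G.Adj _ _ ↔ T.Adj a b
      rw [← h1]
      rfl
    · intro i a v h
      have h2 := (hφ _ (hmem _ (hψ i)).1).2.1
      have h3 : G.connectedComponentMk (φ (ψ i) a) = ψ i := (h2 _).2 ⟨a, rfl⟩
      have h4 : G.connectedComponentMk v = ψ i := by
        rw [← h3]
        exact (SimpleGraph.ConnectedComponent.sound h.reachable).symm
      obtain ⟨b, hb⟩ := (h2 v).1 h4
      exact ⟨b, hb.symm⟩
    · intro i e he
      exact f1 _ (hψ i) e he
    · intro i e he e' he'
      exact f2 _ (hψ i) e he e' he'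
    · intro i j e he e' he' h
      exact hψi (f3 _ (hψ i) _ (hψ j) e he e' he' h)
  · change T.Connected
    rw [← (hmem c0 hc0).2]
    exact (hφ c0 (hmem c0 hc0).1).2.2.1
  · change T.edgeSet.ncard + 1 ≤ p
    rw [← (hmem c0 hc0).2]
    exact (hφ c0 (hmem c0 hc0).1).2.2.2

/-- a tree has a leaf -/
theorem exists_leaf {p : ℕ} {T : SimpleGraph (Fin p)} (hc : T.Connected)
    (he : T.edgeSet.ncard + 1 ≤ p) (hp : 2 ≤ p) :
    ∃ a0 b0 : Fin p, ∀ b, T.Adj a0 b ↔ b = b0 := by
  classical
  have h1 := sum_dg T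
  have hnt : Nontrivial (Fin p) := Fin.nontrivial_iff_two_le.2 hp
  have h2 : ∃ a0, dg T a0 < 2 := by
    by_contra hcon
    push Not at hcon
    have h3 : ∑ _v : Fin p, 2 ≤ ∑ v, dg T v := Finset.sum_le_sum fun v _ => hcon v
    rw [Finset.sum_const, Finset.card_univ, Fintype.card_fin, smul_eq_mul] at h3
    omega
  obtain ⟨a0, ha0⟩ := h2
  have hdeg : dg T a0 = T.degree a0 := by
    rw [← SimpleGraph.card_neighborFinset_eq_degree]
    unfold dg
    congr 1
    ext w
    rw [SimpleGraph.mem_neighborFinset, Finset.mem_filter]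
    simp
  have h3 : 0 < T.degree a0 := hc.preconnected.degree_pos_of_nontrivial a0
  have h4 : T.degree a0 = 1 := by omega
  obtain ⟨b0, hb0, huniq⟩ := SimpleGraph.degree_eq_one_iff_existsUnique_adj.1 h4
  refine ⟨a0, b0, fun b => ⟨fun h => huniq b h, ?_⟩⟩
  rintro rfl
  exact hb0

theorem HasFam.m_le {p : ℕ} {P : Pat p} {m n e : ℕ} (h : HasFam H P m n e) (hp : 0 < p) :
    m ≤ n := by
  obtain ⟨V, _, _, G, χ, φ, h1, _, _, h4⟩ := h
  have hinj : Function.Injective fun i : Fin m => φ i ⟨0, hp⟩ := fun i j hij =>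
    (h4.inj _ _ _ _ hij).1
  have := Fintype.card_le_of_injective _ hinj
  rwa [Fintype.card_fin, h1] at this

theorem k_le_mzero (k : ℕ) : k ≤ mzero k := by
  unfold mzero
  rw [Fintype.card_sum, Fintype.card_fin]
  omega

/-- upper bound -/
theorem upper_bound {p : ℕ} (hp : 0 < p) (hB : ¬ ∃ M, Bd H p M) :
    ∃ C : ℕ, ∀ n, p * rsat H n ≤ (p - 1) * n + C := by
  classical
  obtain ⟨P, n0, e0, hF, hconn, hedge⟩ := exists_fam hB (mzero k + p)
  have hkn : k ≤ n0 := (k_le_mzero k).trans ((Nat.le_add_right _ _).trans (hF.m_le hp))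
  -- large n
  have hbig : ∀ n, n0 ≤ n → p * rsat H n ≤ (p - 1) * n + p * (e0 + 2 * p) := by
    intro n hn
    obtain ⟨t, j, hj, hnj⟩ : ∃ t j, j < p ∧ n = n0 + j + t * p := by
      refine ⟨(n - n0) / p, (n - n0) % p, Nat.mod_lt _ hp, ?_⟩
      have := Nat.div_add_mod (n - n0) p
      rw [mul_comm] at this
      omega
    have h1 : HasFam H P (mzero k + (p - j)) (n0 + j) (e0 + 2 * j) := by
      by_cases hp2 : 2 ≤ p
      · obtain ⟨a0, b0, hleaf⟩ := exists_leaf hconn hedge hp2
        refine HasFam.clones hkn hleaf j ?_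
        rw [show mzero k + (p - j) + j = mzero k + p by omega]
        exact hF
      · have hj0 : j = 0 := by omega
        subst hj0
        simpa using hF
    have h2 := (h1.steps (by omega) t).good.rsat_le
    rw [← hnj] at h2
    have h3 : P.T.edgeSet.ncard ≤ p - 1 := by omega
    calc p * rsat H n ≤ p * (e0 + 2 * j + t * P.T.edgeSet.ncard) := Nat.mul_le_mul_left _ h2
      _ ≤ p * (e0 + 2 * p + t * (p - 1)) := by
          refine Nat.mul_le_mul_left _ ?_
          have := Nat.mul_le_mul_left t h3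
          omega
      _ = (p - 1) * (t * p) + p * (e0 + 2 * p) := by ring
      _ ≤ (p - 1) * n + p * (e0 + 2 * p) := by
          refine Nat.add_le_add_right (Nat.mul_le_mul_left _ ?_) _
          omega
  refine ⟨p * (e0 + 2 * p) + ∑ i ∈ range n0, p * rsat H i, fun n => ?_⟩
  by_cases hn : n0 ≤ n
  · have := hbig n hn
    omega
  · have h1 : p * rsat H n ≤ ∑ i ∈ range n0, p * rsat H i :=
      Finset.single_le_sum (f := fun i => p * rsat H i) (fun _ _ => Nat.zero_le _)
        (Finset.mem_range.2 (by omega))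
    omega

/-- the main theorem, in integers -/
theorem main_nat (hH : H.edgeSet.Nonempty) {ε : ℝ} (hε : 0 < ε)
    (hlim : ∃ᶠ n : ℕ in Filter.atTop, (rsat H n : ℝ) ≤ (1 - ε) * n) :
    ∃ p : ℕ, 0 < p ∧ ∃ C : ℕ, ∀ n, p * rsat H n ≤ (p - 1) * n + C ∧
      (p - 1) * n ≤ p * rsat H n + C := by
  classical
  have hex : ∃ s, ¬ ∃ M, Bd H s M := by
    by_contra hcon
    push Not at hcon
    obtain ⟨q, hq⟩ := exists_nat_gt (2 / ε)
    have hq0 : (0 : ℝ) < q := lt_trans (by positivity) hq
    obtain ⟨C, hC⟩ := lower_bound (H := H) (q := q) (fun s _ => hcon s)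
    obtain ⟨n1, hn1⟩ := exists_nat_gt (C : ℝ)
    obtain ⟨n, hn, hle⟩ := (Filter.frequently_atTop.1 hlim) (n1 + 1)
    obtain ⟨mm, hgood⟩ := exists_good hH n
    obtain ⟨G, χ, h1, h2⟩ := rsat_mem hgood
    have h3 := hC n G χ h2
    rw [h1] at h3
    have h4 : (q : ℝ) * n ≤ q * rsat H n + C + n := by exact_mod_cast h3
    have h5 : (q : ℝ) * rsat H n ≤ q * ((1 - ε) * n) := mul_le_mul_of_nonneg_left hle hq0.le
    have h6 : 2 < q * ε := by
      rw [div_lt_iff₀ hε] at hq
      exact hq
    have h7 : (n1 : ℝ) + 1 ≤ n := by exact_mod_cast hn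
    have hn0 : (0 : ℝ) ≤ n := Nat.cast_nonneg n
    nlinarith
  have hp : 0 < Nat.find hex := by
    rw [Nat.pos_iff_ne_zero]
    intro h0
    exact Nat.find_spec hex ⟨0, by rw [h0]; exact bd_zero⟩
  set p := Nat.find hex with hpdef
  have hspec : ¬ ∃ M, Bd H p M := Nat.find_spec hex
  obtain ⟨C1, hC1⟩ := upper_bound hp hspec
  obtain ⟨C2, hC2⟩ := lower_bound (H := H) (q := p) (fun s hs => by
    have := Nat.find_min hex hs
    push Not at this
    exact this)
  refine ⟨p, hp, C1 + C2, fun n => ⟨(hC1 n).trans (by omega), ?_⟩⟩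
  obtain ⟨mm, hgood⟩ := exists_good hH n
  obtain ⟨G, χ, h1, h2⟩ := rsat_mem hgood
  have h3 := hC2 n G χ h2
  rw [h1] at h3
  have h4 : (p - 1) * n + n = p * n := by
    obtain ⟨r, hr⟩ : ∃ r, p = r + 1 := ⟨p - 1, by omega⟩
    rw [hr, Nat.add_sub_cancel]
    ring
  omega

end Pool.Agent.Helper28.RS
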