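import Mathlib

/-! Rainbow saturation: definitions and transport lemmas (MP_e4665f_co). -/

set_option autoImplicit false

namespace Pool.Agent.Helper28.RS

open SimpleGraph

/-- `f` is a rainbow copy of `H` in the edge-coloured graph `(G, χ)` -/
def IsRb {k : ℕ} (H : SimpleGraph (Fin k)) {V : Type*} (G : SimpleGraph V) (χ : Sym2 V → ℕ)
    (f : Fin k → V) : Prop :=
  Function.Injective f ∧ (∀ u v, H.Adj u v → G.Adj (f u) (f v)) ∧
    ∀ e₁ ∈ H.edgeSet, ∀ e₂ ∈ H.edgeSet, χ (e₁.map f) = χ (e₂.map f) → e₁ = e₂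

/-- `(G, χ)` contains a rainbow copy of `H` -/
def Rb {k : ℕ} (H : SimpleGraph (Fin k)) {V : Type*} (G : SimpleGraph V) (χ : Sym2 V → ℕ) : Prop :=
  ∃ f : Fin k → V, Function.Injective f ∧ (∀ u v, H.Adj u v → G.Adj (f u) (f v)) ∧
    ∀ e₁ ∈ H.edgeSet, ∀ e₂ ∈ H.edgeSet, χ (e₁.map f) = χ (e₂.map f) → e₁ = e₂

/-- `(G, χ)` is rainbow `H`-saturated -/
def Sat {k : ℕ} (H : SimpleGraph (Fin k)) {V : Type*} [DecidableEq V] (G : SimpleGraph V)
    (χ : Sym2 V → ℕ) : Prop :=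
  ¬ Rb H G χ ∧ ∀ x y : V, x ≠ y → ¬ G.Adj x y → ∀ col : ℕ,
    Rb H (G ⊔ SimpleGraph.fromEdgeSet {s(x, y)}) (Function.update χ s(x, y) col)

/-- the rainbow saturation number -/
noncomputable def rsat {k : ℕ} (H : SimpleGraph (Fin k)) (n : ℕ) : ℕ :=
  sInf {m : ℕ | ∃ (G : SimpleGraph (Fin n)) (χ : Sym2 (Fin n) → ℕ),
    G.edgeSet.ncard = m ∧ Sat H G χ}

variable {k : ℕ} {H : SimpleGraph (Fin k)}

theorem IsRb.rb {V : Type*} {G : SimpleGraph V} {χ : Sym2 V → ℕ} {f : Fin k → V}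
    (h : IsRb H G χ f) : Rb H G χ := ⟨f, h⟩

theorem mem_edgeSet_map {V : Type*} {G : SimpleGraph V} {f : Fin k → V}
    (h : ∀ u v, H.Adj u v → G.Adj (f u) (f v)) {e : Sym2 (Fin k)} (he : e ∈ H.edgeSet) :
    e.map f ∈ G.edgeSet := by
  induction e using Sym2.ind with
  | h u v => exact h u v he

theorem IsRb.comp {V V' : Type*} {G : SimpleGraph V} {χ : Sym2 V → ℕ} {G' : SimpleGraph V'}
    {χ' : Sym2 V' → ℕ} {f : Fin k → V} (hf : IsRb H G χ f) (σ : V → V')
    (hinj : ∀ u v, σ (f u) = σ (f v) → f u = f v)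
    (hadj : ∀ u v, H.Adj u v → G'.Adj (σ (f u)) (σ (f v)))
    (hcol : ∀ e₁ ∈ H.edgeSet, ∀ e₂ ∈ H.edgeSet,
      χ' ((e₁.map f).map σ) = χ' ((e₂.map f).map σ) → χ (e₁.map f) = χ (e₂.map f)) :
    IsRb H G' χ' (σ ∘ f) := by
  refine ⟨fun u v h => hf.1 (hinj u v h), hadj, fun e₁ h₁ e₂ h₂ h => ?_⟩
  rw [← Sym2.map_map, ← Sym2.map_map] at h
  exact hf.2.2 e₁ h₁ e₂ h₂ (hcol e₁ h₁ e₂ h₂ h)

/-- transport of a rainbow copy along an injective map compatible with edges and colours -/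
theorem Rb.transport {V V' : Type*} {G : SimpleGraph V} {χ : Sym2 V → ℕ} {G' : SimpleGraph V'}
    {χ' : Sym2 V' → ℕ} (h : Rb H G χ) (σ : V → V') (hσ : Function.Injective σ)
    (hadj : ∀ u v, G.Adj u v → G'.Adj (σ u) (σ v))
    (hcol : ∀ d₁ ∈ G.edgeSet, ∀ d₂ ∈ G.edgeSet, χ' (d₁.map σ) = χ' (d₂.map σ) → χ d₁ = χ d₂) :
    Rb H G' χ' := by
  obtain ⟨f, hf⟩ := h
  have hf' : IsRb H G χ f := hf
  exact (hf'.comp σ (fun u v h => hσ h) (fun u v h => hadj _ _ (hf.2.1 u v h))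
    (fun e₁ h₁ e₂ h₂ h => hcol _ (mem_edgeSet_map hf.2.1 h₁) _ (mem_edgeSet_map hf.2.1 h₂) h)).rb

theorem adj_sup_edge {V : Type*} {G : SimpleGraph V} {x y u v : V} (hxy : x ≠ y) :
    (G ⊔ SimpleGraph.fromEdgeSet {s(x, y)}).Adj u v ↔ G.Adj u v ∨ s(u, v) = s(x, y) := by
  rw [SimpleGraph.sup_adj, SimpleGraph.fromEdgeSet_adj, Set.mem_singleton_iff]
  constructor
  · rintro (h | h)
    · exact Or.inl h
    · exact Or.inr h.1
  · rintro (h | h)
    · exact Or.inl h
    · refine Or.inr ⟨h, ?_⟩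
      rintro rfl
      rw [Sym2.eq_iff] at h
      rcases h with ⟨rfl, rfl⟩ | ⟨rfl, rfl⟩ <;> exact hxy rfl

theorem mem_edgeSet_sup_edge {V : Type*} {G : SimpleGraph V} {x y : V} {d : Sym2 V} (hxy : x ≠ y) :
    d ∈ (G ⊔ SimpleGraph.fromEdgeSet {s(x, y)}).edgeSet ↔ d ∈ G.edgeSet ∨ d = s(x, y) := by
  induction d using Sym2.ind with
  | h u v => exact adj_sup_edge hxy

/-- saturation does not depend on the names of the vertices -/
theorem Sat.equiv {V V' : Type*} [DecidableEq V] [DecidableEq V'] {G : SimpleGraph V}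
    {χ : Sym2 V → ℕ} (h : Sat H G χ) (σ : V ≃ V') :
    Sat H (G.comap σ.symm) (fun e => χ (e.map σ.symm)) := by
  have hmap : ∀ e : Sym2 V, (e.map σ).map σ.symm = e := by
    intro e
    rw [Sym2.map_map]
    have : (σ.symm ∘ σ) = id := by ext x; simp
    rw [this, Sym2.map_id, id]
  constructor
  · intro h1
    apply h.1
    refine h1.transport σ.symm σ.symm.injective (fun u v huv => huv) ?_
    intro d₁ _ d₂ _ hd
    exact hd
  · intro x y hxy hadj col
    have h2 := h.2 (σ.symm x) (σ.symm y) (fun h3 => hxy (σ.symm.injective h3)) hadj col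
    have hne : σ.symm x ≠ σ.symm y := fun h3 => hxy (σ.symm.injective h3)
    have key : ∀ d : Sym2 V, Function.update (fun e => χ (Sym2.map (⇑σ.symm) e)) s(x, y) col
        (d.map σ) = Function.update χ s(σ.symm x, σ.symm y) col d := by
      intro d
      by_cases hd : d = s(σ.symm x, σ.symm y)
      · rw [hd]
        simp
      · have hd' : d.map σ ≠ s(x, y) := by
          intro h4
          apply hd
          rw [← hmap d, h4, Sym2.map_mk]
        rw [Function.update_of_ne hd, Function.update_of_ne hd', hmap]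
    refine h2.transport σ σ.injective ?_ ?_
    · intro u v huv
      rw [adj_sup_edge hne] at huv
      rw [adj_sup_edge hxy]
      rcases huv with huv | huv
      · left
        simpa using huv
      · right
        have := congrArg (Sym2.map σ) huv
        simpa using this
    · intro d₁ _ d₂ _ hd
      rwa [key, key] at hd

/-- there is a rainbow saturated graph with `n` vertices and at most `m` edges -/
def Good {k : ℕ} (H : SimpleGraph (Fin k)) (n m : ℕ) : Prop :=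
  ∃ (G : SimpleGraph (Fin n)) (χ : Sym2 (Fin n) → ℕ), G.edgeSet.ncard ≤ m ∧ Sat H G χ

theorem Good.rsat_le {n m : ℕ} (h : Good H n m) : rsat H n ≤ m := by
  obtain ⟨G, χ, h1, h2⟩ := h
  have h3 : G.edgeSet.ncard ∈ {m : ℕ | ∃ (G : SimpleGraph (Fin n)) (χ : Sym2 (Fin n) → ℕ),
    G.edgeSet.ncard = m ∧ Sat H G χ} := ⟨G, χ, rfl, h2⟩
  exact (Nat.sInf_le h3).trans h1

theorem rsat_mem {n m : ℕ} (h : Good H n m) : ∃ (G : SimpleGraph (Fin n)) (χ : Sym2 (Fin n) → ℕ),
    G.edgeSet.ncard = rsat H n ∧ Sat H G χ := by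
  have hne : {m : ℕ | ∃ (G : SimpleGraph (Fin n)) (χ : Sym2 (Fin n) → ℕ),
      G.edgeSet.ncard = m ∧ Sat H G χ}.Nonempty := by
    obtain ⟨G, χ, h1, h2⟩ := h
    exact ⟨G.edgeSet.ncard, G, χ, rfl, h2⟩
  exact Nat.sInf_mem hne

/-- existence of saturated graphs -/
theorem exists_good (hH : H.edgeSet.Nonempty) (n : ℕ) : ∃ m, Good H n m := by
  classical
  -- the numbers of edges of colourings without rainbow copy
  let S : Set ℕ := {m | ∃ (G : SimpleGraph (Fin n)) (χ : Sym2 (Fin n) → ℕ),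
    G.edgeSet.ncard = m ∧ ¬ Rb H G χ}
  have hb : ∀ m ∈ S, m ≤ Fintype.card (Sym2 (Fin n)) := by
    rintro m ⟨G, χ, rfl, _⟩
    rw [← Nat.card_eq_fintype_card, ← Set.ncard_univ]
    exact Set.ncard_le_ncard (Set.subset_univ _) (Set.toFinite _)
  have hne : S.Nonempty := by
    refine ⟨_, ⊥, fun _ => 0, rfl, ?_⟩
    rintro ⟨f, _, h2, _⟩
    obtain ⟨e, he⟩ := hH
    have := mem_edgeSet_map (G := (⊥ : SimpleGraph (Fin n))) h2 he
    simp at this
  have hmem : sSup S ∈ S := Nat.sSup_mem hne ⟨_, hb⟩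
  obtain ⟨G, χ, h1, h2⟩ := hmem
  refine ⟨G.edgeSet.ncard, G, χ, le_rfl, h2, ?_⟩
  intro x y hxy hadj col
  by_contra hcon
  have h3 : (G ⊔ SimpleGraph.fromEdgeSet {s(x, y)}).edgeSet.ncard ∈ S := ⟨_, _, rfl, hcon⟩
  have h4 := le_csSup ⟨_, hb⟩ h3
  have h5 : (G ⊔ SimpleGraph.fromEdgeSet {s(x, y)}).edgeSet = insert s(x, y) G.edgeSet := by
    ext d
    rw [mem_edgeSet_sup_edge hxy, Set.mem_insert_iff, or_comm]
  have h6 : s(x, y) ∉ G.edgeSet := hadj
  rw [h5, Set.ncard_insert_of_notMem h6 (Set.toFinite _), h1] at h4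
  omega

/-- vertex sets other than `Fin n` -/
theorem Sat.good {V : Type*} [Fintype V] [DecidableEq V] {G : SimpleGraph V} {χ : Sym2 V → ℕ}
    (h : Sat H G χ) : Good H (Fintype.card V) G.edgeSet.ncard := by
  classical
  let σ := Fintype.equivFin V
  refine ⟨_, _, ?_, h.equiv σ⟩
  have h1 : (G.comap σ.symm).edgeSet = Sym2.map σ '' G.edgeSet := by
    ext d
    induction d using Sym2.ind with
    | h u v =>
      constructor
      · intro huv
        refine ⟨s(σ.symm u, σ.symm v), huv, ?_⟩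
        simp
      · rintro ⟨d, hd, hd2⟩
        induction d using Sym2.ind with
        | h a b =>
          have h3 : s(a, b) = s(σ.symm u, σ.symm v) := by
            have := congrArg (Sym2.map σ.symm) hd2
            simpa using this
          rw [h3] at hd
          exact hd
  rw [h1]
  exact Set.ncard_image_le (Set.toFinite _)

end Pool.Agent.Helper28.RS
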