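import Pool.Agent.Helper28.RS.Defs

/-! Rainbow saturation: adding one more copy of a repeated component. -/

set_option autoImplicit false

namespace Pool.Agent.Helper28.RS

open SimpleGraph

variable {k : ℕ} {H : SimpleGraph (Fin k)}

/-- the pattern of a repeated component: graph, kernel colours / equality pattern, petals -/
structure Pat (p : ℕ) where
  T : SimpleGraph (Fin p)
  κ : Sym2 (Fin p) → ℕ
  pet : Set (Sym2 (Fin p))

/-- `φ i`, `i < m`, are disjoint unions of components of `(G, χ)` with the given pattern, the petal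
colours of different members being different -/
structure Fam {V : Type*} (G : SimpleGraph V) (χ : Sym2 V → ℕ) {p : ℕ} (P : Pat p) (m : ℕ)
    (φ : Fin m → Fin p → V) : Prop where
  inj : ∀ i j a b, φ i a = φ j b → i = j ∧ a = b
  adj : ∀ i a b, G.Adj (φ i a) (φ i b) ↔ P.T.Adj a b
  closed : ∀ i a v, G.Adj (φ i a) v → ∃ b, v = φ i b
  kern : ∀ i e, e ∉ P.pet → χ (e.map (φ i)) = P.κ e
  pat : ∀ i, ∀ e ∈ P.pet, ∀ e' ∈ P.pet, (χ (e.map (φ i)) = χ (e'.map (φ i)) ↔ P.κ e = P.κ e')
  petdisj : ∀ i j, ∀ e ∈ P.pet, ∀ e' ∈ P.pet, χ (e.map (φ i)) = χ (e'.map (φ j)) → i = j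

section sum

variable {V : Type*} {p : ℕ}

/-- disjoint union of graphs -/
def gsum (G : SimpleGraph V) (T : SimpleGraph (Fin p)) : SimpleGraph (V ⊕ Fin p) where
  Adj x y := match x, y with
    | Sum.inl v, Sum.inl w => G.Adj v w
    | Sum.inr a, Sum.inr b => T.Adj a b
    | _, _ => False
  symm := ⟨by
    rintro (v | a) (w | b) h
    · exact SimpleGraph.Adj.symm h
    · exact h
    · exact h
    · exact SimpleGraph.Adj.symm h⟩
  loopless := ⟨by
    rintro (v | a) h
    · exact G.loopless.irrefl v h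
    · exact T.loopless.irrefl a h⟩

/-- colouring of a disjoint union -/
def csum (χ : Sym2 V → ℕ) (χT : Sym2 (Fin p) → ℕ) : Sym2 (V ⊕ Fin p) → ℕ :=
  Sym2.lift ⟨fun x y => match x, y with
    | Sum.inl v, Sum.inl w => χ s(v, w)
    | Sum.inr a, Sum.inr b => χT s(a, b)
    | _, _ => 0, by
      rintro (v | a) (w | b)
      · simp [Sym2.eq_swap]
      · rfl
      · rfl
      · simp [Sym2.eq_swap]⟩

theorem csum_inl (χ : Sym2 V → ℕ) (χT : Sym2 (Fin p) → ℕ) (e : Sym2 V) :
    csum χ χT (e.map Sum.inl) = χ e := by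
  induction e using Sym2.ind with
  | h v w => rfl

theorem csum_inr (χ : Sym2 V → ℕ) (χT : Sym2 (Fin p) → ℕ) (e : Sym2 (Fin p)) :
    csum χ χT (e.map Sum.inr) = χT e := by
  induction e using Sym2.ind with
  | h v w => rfl

theorem gsum_edge {G : SimpleGraph V} {T : SimpleGraph (Fin p)} {d : Sym2 (V ⊕ Fin p)}
    (h : d ∈ (gsum G T).edgeSet) :
    (∃ e ∈ G.edgeSet, d = e.map Sum.inl) ∨ (∃ e ∈ T.edgeSet, d = e.map Sum.inr) := by
  induction d using Sym2.ind with
  | h x y =>
    rcases x with v | a <;> rcases y with w | b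
    · exact Or.inl ⟨s(v, w), h, rfl⟩
    · exact absurd h id
    · exact absurd h id
    · exact Or.inr ⟨s(a, b), h, rfl⟩

end sum

/-- bound used for the number of members of the family -/
def mzero (k : ℕ) : ℕ := Fintype.card (Fin k ⊕ Sym2 (Fin k)) + 3

section step

variable {V : Type*} [Fintype V] [DecidableEq V] {p : ℕ} {G : SimpleGraph V} {χ : Sym2 V → ℕ}
  {P : Pat p} {m : ℕ} {φ : Fin m → Fin p → V}

/-- the colours of the new copy -/
noncomputable def newCol (P : Pat p) (N : ℕ) : Sym2 (Fin p) → ℕ := by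
  classical
  exact fun e => if e ∈ P.pet then N + P.κ e else P.κ e

theorem newCol_pet {N : ℕ} {e : Sym2 (Fin p)} (h : e ∈ P.pet) : newCol P N e = N + P.κ e := by
  unfold newCol
  exact if_pos h

theorem newCol_kern {N : ℕ} {e : Sym2 (Fin p)} (h : e ∉ P.pet) : newCol P N e = P.κ e := by
  unfold newCol
  exact if_neg h

theorem step_free (hS : ¬ Rb H G χ) (hF : Fam G χ P m φ) (hm : mzero k ≤ m) (N : ℕ) :
    ¬ Rb H (gsum G P.T) (csum χ (newCol P N)) := by
  classical
  rintro ⟨f, hf1, hf2, hf3⟩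
  -- choice of an unused member
  have hi : ∃ i : Fin m, (∀ u a, f u ≠ Sum.inl (φ i a)) ∧
      ∀ e ∈ H.edgeSet, ∀ e' ∈ P.pet,
        csum χ (newCol P N) (e.map f) ≠ χ (e'.map (φ i)) := by
    by_contra hcon
    push Not at hcon
    have hg : ∀ i : Fin m, ∃ q : Fin k ⊕ Sym2 (Fin k), (∃ u a, q = Sum.inl u ∧ f u = Sum.inl (φ i a)) ∨
        (∃ e, q = Sum.inr e ∧ ∃ e' ∈ P.pet, csum χ (newCol P N) (e.map f) = χ (e'.map (φ i))) := by
      intro i
      by_cases h : ∀ u a, f u ≠ Sum.inl (φ i a)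
      · obtain ⟨e, he, e', he', h2⟩ := hcon i h
        exact ⟨Sum.inr e, Or.inr ⟨e, rfl, e', he', h2⟩⟩
      · push Not at h
        obtain ⟨u, a, h⟩ := h
        exact ⟨Sum.inl u, Or.inl ⟨u, a, rfl, h⟩⟩
    choose q hq using hg
    have hqi : Function.Injective q := by
      intro i j hij
      rcases hq i with ⟨u, a, h1, h2⟩ | ⟨e, h1, e', he', h2⟩
      · rcases hq j with ⟨u', a', h1', h2'⟩ | ⟨e, h1', _⟩
        · rw [h1, h1'] at hij
          obtain rfl := Sum.inl_injective hij
          rw [h2] at h2'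
          exact (hF.inj _ _ _ _ (Sum.inl_injective h2')).1
        · rw [h1, h1'] at hij
          cases hij
      · rcases hq j with ⟨u', a', h1', h2'⟩ | ⟨e1, h1', e1', he1', h2'⟩
        · rw [h1, h1'] at hij
          cases hij
        · rw [h1, h1'] at hij
          obtain rfl := Sum.inr_injective hij
          rw [h2] at h2'
          exact hF.petdisj _ _ _ he' _ he1' h2'
    have := Fintype.card_le_of_injective q hqi
    rw [Fintype.card_fin] at this
    unfold mzero at hm
    omega
  obtain ⟨i, hi1, hi2⟩ := hi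
  apply hS
  let ρ : V ⊕ Fin p → V := Sum.elim id (φ i)
  have hρ1 : ∀ e : Sym2 V, (e.map Sum.inl).map ρ = e := by
    intro e
    rw [Sym2.map_map]
    have : ρ ∘ Sum.inl = id := rfl
    rw [this, Sym2.map_id, id]
  have hρ2 : ∀ e : Sym2 (Fin p), (e.map Sum.inr).map ρ = e.map (φ i) := by
    intro e
    rw [Sym2.map_map]
    rfl
  have hf : IsRb H (gsum G P.T) (csum χ (newCol P N)) f := ⟨hf1, hf2, hf3⟩
  refine (hf.comp (G' := G) (χ' := χ) ρ ?_ ?_ ?_).rb
  · intro u v huv
    rcases hu : f u with x | a <;> rcases hv : f v with y | b <;> rw [hu, hv] at huv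
    · exact congrArg Sum.inl huv
    · exact absurd (hu.trans (congrArg Sum.inl huv)) (hi1 u b)
    · exact absurd (hv.trans (congrArg Sum.inl huv.symm)) (hi1 v a)
    · exact congrArg Sum.inr (hF.inj _ _ _ _ huv).2
  · intro u v huv
    have h := hf2 u v huv
    rcases hu : f u with x | a <;> rcases hv : f v with y | b <;> rw [hu, hv] at h
    · exact h
    · exact absurd h id
    · exact absurd h id
    · exact (hF.adj i a b).2 h
  · intro e₁ h₁ e₂ h₂ h
    have hd1 := gsum_edge (mem_edgeSet_map hf2 h₁)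
    have hd2 := gsum_edge (mem_edgeSet_map hf2 h₂)
    -- colour after the move
    have hcol : ∀ e ∈ H.edgeSet, (χ ((e.map f).map ρ) = csum χ (newCol P N) (e.map f)) ∨
        (∃ e' ∈ P.pet, e.map f = e'.map Sum.inr ∧ χ ((e.map f).map ρ) = χ (e'.map (φ i))) := by
      intro e he
      rcases gsum_edge (mem_edgeSet_map hf2 he) with ⟨e0, _, h0⟩ | ⟨e0, _, h0⟩
      · left
        rw [h0, hρ1, csum_inl]
      · by_cases hp : e0 ∈ P.pet
        · right
          exact ⟨e0, hp, h0, by rw [h0, hρ2]⟩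
        · left
          rw [h0, hρ2, csum_inr, newCol_kern hp, hF.kern i e0 hp]
    rcases hcol e₁ h₁ with c1 | ⟨a1, p1, q1, c1⟩ <;> rcases hcol e₂ h₂ with c2 | ⟨a2, p2, q2, c2⟩
    · rw [← c1, ← c2, h]
    · rw [c1, c2] at h
      exact absurd h (hi2 e₁ h₁ a2 p2)
    · rw [c1, c2] at h
      exact absurd h.symm (hi2 e₂ h₂ a1 p1)
    · rw [c1, c2, hF.pat i a1 p1 a2 p2] at h
      rw [q1, q2, csum_inr, csum_inr, newCol_pet p1, newCol_pet p2, h]

/-- transport of saturation along the exchange of a member with the new copy -/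
theorem step_sat (hS : Sat H G χ) (hF : Fam G χ P m φ) {N : ℕ} (hN : ∀ e, χ e < N)
    (i : Fin m) (σ : V → V ⊕ Fin p) (hσ1 : ∀ a, σ (φ i a) = Sum.inr a)
    (hσ2 : ∀ v, (∀ a, v ≠ φ i a) → σ v = Sum.inl v) {v w : V} (hvw : v ≠ w)
    (hadj : ¬ G.Adj v w) (col : ℕ) :
    Rb H (gsum G P.T ⊔ SimpleGraph.fromEdgeSet {s(σ v, σ w)})
      (Function.update (csum χ (newCol P N)) s(σ v, σ w) col) := by
  classical
  have hσi : Function.Injective σ := by
    intro x y hxy
    by_cases hx : ∃ a, x = φ i a <;> by_cases hy : ∃ b, y = φ i b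
    · obtain ⟨a, rfl⟩ := hx
      obtain ⟨b, rfl⟩ := hy
      rw [hσ1, hσ1] at hxy
      rw [Sum.inr_injective hxy]
    · obtain ⟨a, rfl⟩ := hx
      push Not at hy
      rw [hσ1, hσ2 y hy] at hxy
      cases hxy
    · obtain ⟨b, rfl⟩ := hy
      push Not at hx
      rw [hσ1, hσ2 x hx] at hxy
      cases hxy
    · push Not at hx hy
      rw [hσ2 x hx, hσ2 y hy] at hxy
      exact Sum.inl_injective hxy
  have hσvw : σ v ≠ σ w := fun h => hvw (hσi h)
  -- the colour used in the old graph
  obtain ⟨col', hcol1, hcol2⟩ : ∃ col' : ℕ,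
      (∀ e ∈ P.pet, col = N + P.κ e → col' = χ (e.map (φ i))) ∧
      (col < N → col' = col) := by
    by_cases h : ∃ e ∈ P.pet, col = N + P.κ e
    · obtain ⟨e, he, rfl⟩ := h
      refine ⟨χ (e.map (φ i)), ?_, fun h => absurd h (by omega)⟩
      intro e' he' h
      rw [hF.pat i e he e' he']
      omega
    · push Not at h
      exact ⟨col, fun e he h' => absurd h' (h e he), fun _ => rfl⟩
  have hrb := hS.2 v w hvw hadj col'
  -- edges of G
  have hedge : ∀ d ∈ G.edgeSet, (∃ e ∈ P.T.edgeSet, d = e.map (φ i) ∧ d.map σ = e.map Sum.inr) ∨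
      (d.map σ = d.map Sum.inl) := by
    intro d hd
    induction d using Sym2.ind with
    | h x y =>
      by_cases hx : ∃ a, x = φ i a
      · obtain ⟨a, rfl⟩ := hx
        obtain ⟨b, rfl⟩ := hF.closed i a y hd
        left
        refine ⟨s(a, b), (hF.adj i a b).1 hd, rfl, ?_⟩
        rw [Sym2.map_mk, Sym2.map_mk, hσ1, hσ1]
      · have hy : ∀ b, y ≠ φ i b := by
          rintro b rfl
          exact hx (hF.closed i b x (SimpleGraph.Adj.symm hd))
        push Not at hx
        right
        rw [Sym2.map_mk, Sym2.map_mk, hσ2 x hx, hσ2 y hy]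
  refine hrb.transport σ hσi ?_ ?_
  · intro x y hxy
    rw [adj_sup_edge hvw] at hxy
    rw [adj_sup_edge hσvw]
    rcases hxy with hxy | hxy
    · left
      by_cases hx : ∃ a, x = φ i a
      · obtain ⟨a, rfl⟩ := hx
        obtain ⟨b, rfl⟩ := hF.closed i a y hxy
        rw [hσ1, hσ1]
        exact (hF.adj i a b).1 hxy
      · have hy : ∀ b, y ≠ φ i b := by
          rintro b rfl
          exact hx (hF.closed i b x (SimpleGraph.Adj.symm hxy))
        push Not at hx
        rw [hσ2 x hx, hσ2 y hy]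
        exact hxy
    · right
      have := congrArg (Sym2.map σ) hxy
      simpa using this
  · -- values of the two colourings
    have hval : ∀ d ∈ (G ⊔ SimpleGraph.fromEdgeSet {s(v, w)}).edgeSet,
        (Function.update (csum χ (newCol P N)) s(σ v, σ w) col (d.map σ) = col ∧
          Function.update χ s(v, w) col' d = col') ∨
        (∃ e ∈ P.pet, Function.update (csum χ (newCol P N)) s(σ v, σ w) col (d.map σ) =
          N + P.κ e ∧ Function.update χ s(v, w) col' d = χ (e.map (φ i))) ∨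
        (Function.update (csum χ (newCol P N)) s(σ v, σ w) col (d.map σ) < N ∧
          Function.update χ s(v, w) col' d =
            Function.update (csum χ (newCol P N)) s(σ v, σ w) col (d.map σ)) := by
      intro d hd
      by_cases hd0 : d = s(v, w)
      · left
        rw [hd0]
        simp
      · have hd1 : d ∈ G.edgeSet := ((mem_edgeSet_sup_edge hvw).1 hd).resolve_right hd0
        have hd2 : d.map σ ≠ s(σ v, σ w) := by
          intro h
          apply hd0
          rw [← Sym2.map_mk] at h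
          exact Sym2.map.injective hσi h
        rw [Function.update_of_ne hd0, Function.update_of_ne hd2]
        right
        rcases hedge d hd1 with ⟨e, _, he1, he2⟩ | he
        · by_cases hp : e ∈ P.pet
          · left
            exact ⟨e, hp, by rw [he2, csum_inr, newCol_pet hp], by rw [he1]⟩
          · right
            rw [he2, csum_inr, newCol_kern hp, he1, hF.kern i e hp]
            exact ⟨by rw [← hF.kern i e hp]; exact hN _, rfl⟩
        · right
          rw [he, csum_inl]
          exact ⟨hN _, rfl⟩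
    intro d₁ h₁ d₂ h₂ h
    rcases hval d₁ h₁ with ⟨a1, b1⟩ | ⟨e1, p1, a1, b1⟩ | ⟨a1, b1⟩ <;>
      rcases hval d₂ h₂ with ⟨a2, b2⟩ | ⟨e2, p2, a2, b2⟩ | ⟨a2, b2⟩
    · rw [b1, b2]
    · rw [a1, a2] at h
      rw [b1, b2, hcol1 e2 p2 h]
    · rw [a1] at h
      rw [b1, b2, ← h]
      exact hcol2 (h ▸ a2)
    · rw [a1, a2] at h
      rw [b1, b2, hcol1 e1 p1 h.symm]
    · rw [a1, a2] at h
      rw [b1, b2, hF.pat i e1 p1 e2 p2]
      omega
    · rw [a1] at h
      omega
    · rw [a2] at h
      rw [b1, b2, h]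
      exact (hcol2 (h ▸ a1)).symm
    · rw [a2] at h
      omega
    · rw [b1, b2, h]

theorem exists_sigma (hF : Fam G χ P m φ) (i : Fin m) : ∃ σ : V → V ⊕ Fin p,
    (∀ a, σ (φ i a) = Sum.inr a) ∧ (∀ v, (∀ a, v ≠ φ i a) → σ v = Sum.inl v) := by
  classical
  refine ⟨fun v => if h : ∃ a, v = φ i a then Sum.inr h.choose else Sum.inl v, ?_, ?_⟩
  · intro a
    have h : ∃ b, φ i a = φ i b := ⟨a, rfl⟩
    change (if h : ∃ b, φ i a = φ i b then Sum.inr h.choose else Sum.inl (φ i a)) = Sum.inr a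
    rw [dif_pos h]
    exact congrArg Sum.inr (hF.inj _ _ _ _ h.choose_spec).2.symm
  · intro v hv
    have h : ¬ ∃ a, v = φ i a := by
      rintro ⟨a, ha⟩
      exact hv a ha
    change (if h : ∃ a, v = φ i a then Sum.inr h.choose else Sum.inl v) = Sum.inl v
    rw [dif_neg h]

/-- adding one more copy -/
theorem step (hS : Sat H G χ) (hF : Fam G χ P m φ) (hm : mzero k ≤ m) :
    ∃ χ' : Sym2 (V ⊕ Fin p) → ℕ, Sat H (gsum G P.T) χ' ∧
      Fam (gsum G P.T) χ' P m (fun i a => Sum.inl (φ i a)) := by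
  classical
  obtain ⟨N, hN⟩ : ∃ N, ∀ e, χ e < N :=
    ⟨(Finset.univ.sup χ) + 1, fun e => Nat.lt_succ_of_le (Finset.le_sup (Finset.mem_univ e))⟩
  refine ⟨csum χ (newCol P N), ⟨step_free hS.1 hF hm N, ?_⟩, ?_⟩
  · intro x y hxy hadj col
    -- choose a member avoiding the two vertices
    have hex : ∀ v w : V, ∃ i : Fin m, (∀ a, v ≠ φ i a) ∧ ∀ a, w ≠ φ i a := by
      intro v w
      by_contra hcon
      push Not at hcon
      have hg : ∀ i : Fin m, ∃ q : Fin 2, (q = 0 ∧ ∃ a, v = φ i a) ∨ (q = 1 ∧ ∃ a, w = φ i a) := by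
        intro i
        by_cases h : ∀ a, v ≠ φ i a
        · exact ⟨1, Or.inr ⟨rfl, hcon i h⟩⟩
        · push Not at h
          exact ⟨0, Or.inl ⟨rfl, h⟩⟩
      choose q hq using hg
      have hqi : Function.Injective q := by
        intro i j hij
        rcases hq i with ⟨h1, a, h2⟩ | ⟨h1, a, h2⟩ <;> rcases hq j with ⟨h1', b, h2'⟩ | ⟨h1', b, h2'⟩
        · exact (hF.inj _ _ _ _ (h2.symm.trans h2')).1
        · rw [h1, h1'] at hij
          exact absurd hij (by decide)
        · rw [h1, h1'] at hij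
          exact absurd hij (by decide)
        · exact (hF.inj _ _ _ _ (h2.symm.trans h2')).1
      have := Fintype.card_le_of_injective q hqi
      rw [Fintype.card_fin, Fintype.card_fin] at this
      unfold mzero at hm
      omega
    rcases x with v | a <;> rcases y with w | b
    · obtain ⟨i, hi1, hi2⟩ := hex v w
      obtain ⟨σ, hσ1, hσ2⟩ := exists_sigma hF i
      have h := step_sat hS hF hN i σ hσ1 hσ2 (v := v) (w := w)
        (fun h => hxy (congrArg Sum.inl h)) hadj col
      rwa [hσ2 v hi1, hσ2 w hi2] at h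
    · obtain ⟨i, hi1, _⟩ := hex v v
      obtain ⟨σ, hσ1, hσ2⟩ := exists_sigma hF i
      have h := step_sat hS hF hN i σ hσ1 hσ2 (v := v) (w := φ i b)
        (hi1 b) (fun h => by
          obtain ⟨c, hc⟩ := hF.closed i b v (SimpleGraph.Adj.symm h)
          exact hi1 c hc) col
      rwa [hσ2 v hi1, hσ1 b] at h
    · obtain ⟨i, hi1, _⟩ := hex w w
      obtain ⟨σ, hσ1, hσ2⟩ := exists_sigma hF i
      have h := step_sat hS hF hN i σ hσ1 hσ2 (v := φ i a) (w := w)
        (fun h => hi1 a h.symm) (fun h => by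
          obtain ⟨c, hc⟩ := hF.closed i a w h
          exact hi1 c hc) col
      rwa [hσ2 w hi1, hσ1 a] at h
    · have hm0 : 0 < m := by
        unfold mzero at hm
        omega
      let i : Fin m := ⟨0, hm0⟩
      obtain ⟨σ, hσ1, hσ2⟩ := exists_sigma hF i
      have h := step_sat hS hF hN i σ hσ1 hσ2 (v := φ i a) (w := φ i b)
        (fun h => hxy (congrArg Sum.inr (hF.inj _ _ _ _ h).2))
        (fun h => hadj ((hF.adj i a b).1 h)) col
      rwa [hσ1 a, hσ1 b] at h
  · have hmap : ∀ (i : Fin m) (e : Sym2 (Fin p)),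
        csum χ (newCol P N) (e.map (fun a => Sum.inl (φ i a))) = χ (e.map (φ i)) := by
      intro i e
      rw [← csum_inl χ (newCol P N), Sym2.map_map]
      rfl
    constructor
    · intro i j a b h
      exact hF.inj _ _ _ _ (Sum.inl_injective h)
    · intro i a b
      exact hF.adj i a b
    · rintro i a (v | b) h
      · obtain ⟨b, hb⟩ := hF.closed i a v h
        exact ⟨b, congrArg Sum.inl hb⟩
      · exact absurd h id
    · intro i e he
      rw [hmap]
      exact hF.kern i e he
    · intro i e he e' he'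
      rw [hmap, hmap]
      exact hF.pat i e he e' he'
    · intro i j e he e' he' h
      rw [hmap, hmap] at h
      exact hF.petdisj _ _ _ he _ he' h

end step

end Pool.Agent.Helper28.RS
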